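import Mathlib

/-!
# An approximately contractible Köthe algebra that is not nuclear
-/

set_option autoImplicit false

namespace Pool.Agent.Results.MP_07c133_an.NotNuclear

open Filter Topology
open scoped NNReal BigOperators

noncomputable section

/-! ### Köthe sets and Köthe spaces -/

/-- A Köthe set on `I`: a countable set of functions `I → [0, ∞)` which do not vanish
simultaneously, any two of them being dominated by a third one. -/
structure IsKoetheSet {I : Type} (P : Set (I → ℝ≥0)) : Prop where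
  countable : P.Countable
  pos : ∀ i, ∃ p ∈ P, 0 < p i
  directed : ∀ p ∈ P, ∀ q ∈ P, ∃ r ∈ P, ∀ i, max (p i) (q i) ≤ r i

/-- `x` belongs to the Köthe space: `∑ |x_i| p_i < ∞` for all `p ∈ P`. -/
def MemLam {I : Type} (P : Set (I → ℝ≥0)) (x : I → ℂ) : Prop :=
  ∀ p ∈ P, Summable fun i => ‖x i‖ * (p i : ℝ)

/-- The Köthe space as a linear subspace of `ℂ^I`. -/
def lamSub {I : Type} (P : Set (I → ℝ≥0)) : Submodule ℂ (I → ℂ) where
  carrier := {x | MemLam P x}
  add_mem' := by
    intro x y hx hy p hp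
    refine Summable.of_nonneg_of_le (fun i => by positivity) (fun i => ?_)
      ((hx p hp).add (hy p hp))
    rw [← add_mul]
    exact mul_le_mul_of_nonneg_right (norm_add_le _ _) (p i).2
  zero_mem' := by
    intro p hp
    simp only [Pi.zero_apply, norm_zero, zero_mul]
    exact summable_zero
  smul_mem' := by
    intro c x hx p hp
    have := (hx p hp).mul_left ‖c‖
    refine this.congr fun i => ?_
    simp only [Pi.smul_apply, smul_eq_mul, norm_mul]
    ring

/-- The Köthe space `λ(P)`. -/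
def Lam {I : Type} (P : Set (I → ℝ≥0)) : Type := lamSub P

instance {I : Type} (P : Set (I → ℝ≥0)) : AddCommGroup (Lam P) :=
  inferInstanceAs (AddCommGroup (lamSub P))

instance {I : Type} (P : Set (I → ℝ≥0)) : Module ℂ (Lam P) :=
  inferInstanceAs (Module ℂ (lamSub P))

/-- The seminorm `‖x‖_p = ∑ |x_i| p_i`. -/
def nrm {I : Type} (P : Set (I → ℝ≥0)) (p : P) : Seminorm ℂ (Lam P) :=
  Seminorm.of (fun x => ∑' i, ‖x.1 i‖ * (p.1 i : ℝ))
    (by
      intro x y
      rw [← ((x.2 p.1 p.2).tsum_add (y.2 p.1 p.2))]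
      refine ((x + y).2 p.1 p.2).tsum_le_tsum (fun i => ?_) ((x.2 p.1 p.2).add (y.2 p.1 p.2))
      rw [← add_mul]
      exact mul_le_mul_of_nonneg_right (norm_add_le _ _) (p.1 i).2)
    (by
      intro c x
      rw [← tsum_mul_left]
      refine tsum_congr fun i => ?_
      have : (c • x).1 i = c * x.1 i := rfl
      rw [this, norm_mul]
      ring)

/-- The topology of the Köthe space, given by the seminorms `‖·‖_p`, `p ∈ P`. -/
instance {I : Type} (P : Set (I → ℝ≥0)) : TopologicalSpace (Lam P) :=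
  (SeminormFamily.moduleFilterBasis (nrm P : SeminormFamily ℂ (Lam P) P)).topology

/-- `λ(P)` is closed under pointwise multiplication (it is a Köthe algebra). -/
def MulClosed {I : Type} (P : Set (I → ℝ≥0)) : Prop :=
  ∀ x y : I → ℂ, MemLam P x → MemLam P y → MemLam P (x * y)

/-- The pointwise multiplication of a Köthe algebra. -/
def lmul {I : Type} {P : Set (I → ℝ≥0)} (h : MulClosed P) (x y : Lam P) : Lam P :=
  ⟨x.1 * y.1, h x.1 y.1 x.2 y.2⟩

/-! ### Approximate contractibility and nuclearity -/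

/-- Fréchet spaces: complete Hausdorff locally convex spaces with a countable base of the
uniformity. -/
structure IsFrechet (X : Type) [AddCommGroup X] [Module ℂ X] [UniformSpace X] : Prop where
  group : IsUniformAddGroup X
  smul : ContinuousSMul ℂ X
  convex : LocallyConvexSpace ℝ X
  sep : T2Space X
  complete : CompleteSpace X
  count : (uniformity X).IsCountablyGenerated

/-- `L a x = a · x` and `R a x = x · a` are jointly continuous and make `X` an `A`-bimodule. -/
structure IsBimod {A X : Type} [AddCommGroup A] [Module ℂ A] [TopologicalSpace A]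
    (mul : A → A → A) [AddCommGroup X] [Module ℂ X] [TopologicalSpace X]
    (L R : A →ₗ[ℂ] X →ₗ[ℂ] X) : Prop where
  contL : Continuous fun z : A × X => L z.1 z.2
  contR : Continuous fun z : A × X => R z.1 z.2
  left : ∀ a b x, L (mul a b) x = L a (L b x)
  right : ∀ a b x, R (mul a b) x = R b (R a x)
  comm : ∀ a b x, L a (R b x) = R b (L a x)

/-- `D` is the pointwise limit of a net of inner derivations `a ↦ a · x_j - x_j · a`. -/
def ApproxInner {A X : Type} [AddCommGroup A] [Module ℂ A] [AddCommGroup X] [Module ℂ X]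
    [TopologicalSpace X] (L R : A →ₗ[ℂ] X →ₗ[ℂ] X) (D : A → X) : Prop :=
  ∃ (J : Type) (_ : Preorder J) (_ : Nonempty J) (_ : IsDirected J (· ≤ ·)) (x : J → X),
    ∀ a, Tendsto (fun j => L a (x j) - R a (x j)) atTop (𝓝 (D a))

/-- Approximate contractibility of a topological algebra `A` with the multiplication `mul`: every
continuous derivation `D` into a Fréchet bimodule `X` is the pointwise limit of a net of inner
derivations. -/
def ApproximatelyContractible {A : Type} [AddCommGroup A] [Module ℂ A] [TopologicalSpace A]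
    (mul : A → A → A) : Prop :=
  ∀ (X : Type) [AddCommGroup X] [Module ℂ X] [UniformSpace X], IsFrechet X →
    ∀ L R : A →ₗ[ℂ] X →ₗ[ℂ] X, IsBimod mul L R →
    ∀ D : A →L[ℂ] X, (∀ a b, D (mul a b) = L a (D b) + R b (D a)) → ApproxInner L R D

/-- A continuous linear map `T` into a Banach space is nuclear: `T x = ∑ f_n(x) y_n` with an
equicontinuous sequence of functionals `f_n` and an absolutely summable sequence `y_n`. -/
def IsNuclearMap {E F : Type} [AddCommGroup E] [Module ℂ E] [TopologicalSpace E]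
    [NormedAddCommGroup F] [NormedSpace ℂ F] (T : E →L[ℂ] F) : Prop :=
  ∃ (q : Seminorm ℂ E) (f : ℕ → E →L[ℂ] ℂ) (y : ℕ → F), Continuous q ∧
    (∀ n x, ‖f n x‖ ≤ q x) ∧ Summable (fun n => ‖y n‖) ∧ ∀ x, HasSum (fun n => f n x • y n) (T x)

/-- Nuclear locally convex spaces (Grothendieck): every continuous linear map into a Banach space
is nuclear. -/
def IsNuclearSpace (E : Type) [AddCommGroup E] [Module ℂ E] [TopologicalSpace E] : Prop :=
  ∀ (F : Type) [NormedAddCommGroup F] [NormedSpace ℂ F] [CompleteSpace F] (T : E →L[ℂ] F),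
    IsNuclearMap T

/-! ### The example -/

/-- The weights. -/
def W : ℕ → ℕ
  | n => n + 2 + ∑ k : Fin n, (W k.1) ^ (k.1 + n)
termination_by n => n
decreasing_by exact k.2

theorem W_eq (n : ℕ) : W n = n + 2 + ∑ k ∈ Finset.range n, (W k) ^ (k + n) := by
  rw [W, Finset.sum_range]

theorem W_ge (n : ℕ) : n + 2 ≤ W n := by
  rw [W_eq]
  omega

theorem W_pos (n : ℕ) : 1 ≤ W n := by have := W_ge n; omega

theorem W_mono {k n : ℕ} (h : k ≤ n) : W k ≤ W n := by
  rcases h.eq_or_lt with rfl | h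
  · exact le_rfl
  · have h1 : W k ^ (k + n) ≤ ∑ k ∈ Finset.range n, (W k) ^ (k + n) :=
      Finset.single_le_sum (f := fun k => W k ^ (k + n)) (fun _ _ => Nat.zero_le _)
        (Finset.mem_range.2 h)
    have h2 : W k ≤ W k ^ (k + n) := Nat.le_self_pow (by omega) _
    rw [W_eq n]
    omega

/-- The index set: the `n`-th block has `(W n) ^ n` elements. -/
abbrev Idx : Type := Σ n : ℕ, Fin (W n ^ n)

/-- The weight functions `(W n) ^ m` on the `n`-th block. -/
def wt (m : ℕ) : Idx → ℝ≥0 := fun i => (W i.1 : ℝ≥0) ^ m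

/-- The Köthe set. -/
def PP : Set (Idx → ℝ≥0) := Set.range wt

theorem wt_mem (m : ℕ) : wt m ∈ PP := ⟨m, rfl⟩

theorem one_le_W (n : ℕ) : (1 : ℝ) ≤ W n := by exact_mod_cast W_pos n

theorem wt_coe (m : ℕ) (i : Idx) : (wt m i : ℝ) = (W i.1 : ℝ) ^ m := by
  simp [wt]

theorem wt_mono {m k : ℕ} (h : m ≤ k) (i : Idx) : (wt m i : ℝ) ≤ wt k i := by
  rw [wt_coe, wt_coe]
  exact pow_le_pow_right₀ (one_le_W _) h

theorem koethe : IsKoetheSet PP where
  countable := Set.countable_range wt
  pos := fun i => ⟨wt 0, wt_mem 0, by simp [wt]⟩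
  directed := by
    rintro p ⟨m, rfl⟩ q ⟨k, rfl⟩
    refine ⟨wt (max m k), wt_mem _, fun i => max_le ?_ ?_⟩
    · exact_mod_cast wt_mono (le_max_left m k) i
    · exact_mod_cast wt_mono (le_max_right m k) i

/-- the seminorm with the index `m` -/
def N (m : ℕ) (x : Lam PP) : ℝ := nrm PP ⟨wt m, wt_mem m⟩ x

theorem N_def (m : ℕ) (x : Lam PP) : N m x = ∑' i, ‖x.1 i‖ * (W i.1 : ℝ) ^ m := by
  have : N m x = ∑' i, ‖x.1 i‖ * (wt m i : ℝ) := rfl
  rw [this]
  simp only [wt_coe]

theorem summ (m : ℕ) (x : Lam PP) : Summable fun i => ‖x.1 i‖ * (W i.1 : ℝ) ^ m := by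
  have := x.2 (wt m) (wt_mem m)
  simpa only [wt_coe] using this

theorem mem_iff (x : Idx → ℂ) :
    MemLam PP x ↔ ∀ m : ℕ, Summable fun i : Idx => ‖x i‖ * (W i.1 : ℝ) ^ m := by
  constructor
  · intro h m
    simpa only [wt_coe] using h (wt m) (wt_mem m)
  · rintro h p ⟨m, rfl⟩
    simpa only [wt_coe] using h m

theorem N_nonneg (m : ℕ) (x : Lam PP) : 0 ≤ N m x := apply_nonneg _ _

theorem N_mono {m k : ℕ} (h : m ≤ k) (x : Lam PP) : N m x ≤ N k x := by
  rw [N_def, N_def]
  refine (summ m x).tsum_le_tsum (fun i => ?_) (summ k x)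
  exact mul_le_mul_of_nonneg_left (pow_le_pow_right₀ (one_le_W _) h) (norm_nonneg _)

theorem coord_le (x : Lam PP) (i : Idx) : ‖x.1 i‖ ≤ N 0 x := by
  rw [N_def]
  have h1 := (summ 0 x).le_tsum i (fun j _ => by positivity)
  simpa using h1

theorem closed : MulClosed PP := by
  intro x y hx hy
  rw [mem_iff] at hx ⊢
  intro m
  let Y : Lam PP := ⟨y, hy⟩
  refine Summable.of_nonneg_of_le (fun i => by positivity) (fun i => ?_)
    ((hx m).mul_left (N 0 Y))
  have h1 : ‖y i‖ ≤ N 0 Y := coord_le Y i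
  rw [Pi.mul_apply, norm_mul]
  have h2 : ‖x i‖ * ‖y i‖ * (W i.1 : ℝ) ^ m = ‖y i‖ * (‖x i‖ * (W i.1 : ℝ) ^ m) := by ring
  rw [h2]
  exact mul_le_mul_of_nonneg_right h1 (by positivity)

theorem withSem : WithSeminorms (nrm PP : SeminormFamily ℂ (Lam PP) PP) := ⟨rfl⟩

instance : IsTopologicalAddGroup (Lam PP) := withSem.topologicalAddGroup

instance : ContinuousSMul ℂ (Lam PP) := withSem.continuousSMul

theorem sup_le (s : Finset PP) : ∃ m : ℕ, ∀ x : Lam PP, s.sup (nrm PP) x ≤ N m x := by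
  classical
  induction s using Finset.induction_on with
  | empty => exact ⟨0, fun x => by simpa using N_nonneg 0 x⟩
  | insert p s _ ih =>
    obtain ⟨m, hm⟩ := ih
    obtain ⟨p, k, rfl⟩ := p
    refine ⟨max k m, fun x => ?_⟩
    rw [Finset.sup_insert, Seminorm.sup_apply]
    refine max_le ?_ ((hm x).trans (N_mono (le_max_right k m) x))
    exact N_mono (le_max_left k m) x

/-- the neighbourhoods of zero -/
theorem nh {U : Set (Lam PP)} (hU : U ∈ 𝓝 (0 : Lam PP)) :
    ∃ m : ℕ, ∃ δ : ℝ, 0 < δ ∧ ∀ x, N m x < δ → x ∈ U := by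
  obtain ⟨s, r, hr, h⟩ := (withSem.mem_nhds_iff 0 U).1 hU
  obtain ⟨m, hm⟩ := sup_le s
  refine ⟨m, r, hr, fun x hx => h ?_⟩
  rw [Seminorm.mem_ball_zero]
  exact (hm x).trans_lt hx

theorem tendsto_zero {x : ℕ → Lam PP} (h : ∀ m, Tendsto (fun n => N m (x n)) atTop (𝓝 0)) :
    Tendsto x atTop (𝓝 0) := by
  intro U hU
  rw [Filter.mem_map]
  obtain ⟨m, δ, hδ, hm⟩ := nh hU
  filter_upwards [(h m).eventually (gt_mem_nhds hδ)] with n hn
  exact hm _ hn

/-- A jointly continuous bilinear map is small at `(s n, t n)` if the products of the seminorms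
are small. -/
theorem bil {X : Type} [AddCommGroup X] [Module ℂ X] [TopologicalSpace X] [IsTopologicalAddGroup X]
    (B : Lam PP →ₗ[ℂ] X →ₗ[ℂ] X) (hB : Continuous (fun z : Lam PP × X => B z.1 z.2))
    (D : Lam PP →L[ℂ] X) (s t : ℕ → Lam PP)
    (h : ∀ m, Tendsto (fun n => (N m (s n) + 1) * N m (t n)) atTop (𝓝 0)) :
    Tendsto (fun n => B (t n) (D (s n))) atTop (𝓝 0) := by
  have hc : Continuous (fun z : Lam PP × Lam PP => B z.1 (D z.2)) :=
    hB.comp (continuous_fst.prodMk (D.continuous.comp continuous_snd))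
  have h0 : Tendsto (fun z : Lam PP × Lam PP => B z.1 (D z.2)) (𝓝 (0, 0)) (𝓝 0) := by
    have := hc.tendsto (0, 0)
    simpa using this
  intro U hU
  have h1 := h0 hU
  rw [Filter.mem_map]
  rw [Filter.mem_map, nhds_prod_eq, Filter.mem_prod_iff] at h1
  obtain ⟨U1, hU1, U2, hU2, h12⟩ := h1
  obtain ⟨m1, δ1, hδ1, hm1⟩ := nh hU1
  obtain ⟨m2, δ2, hδ2, hm2⟩ := nh hU2
  have hδ : 0 < δ1 * (δ2 / 2) := by positivity
  filter_upwards [(h (max m1 m2)).eventually (gt_mem_nhds hδ)] with n hn
  set k := max m1 m2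
  set c : ℝ := (δ2 / 2) / (N k (s n) + 1) with hcdef
  have hs : 0 < N k (s n) + 1 := by have := N_nonneg k (s n); linarith
  have hc0 : 0 < c := by positivity
  have hsc : ∀ (j : ℕ) (r : ℝ) (x : Lam PP), 0 < r → N j ((r : ℂ) • x) = r * N j x := by
    intro j r x hr
    have : N j ((r : ℂ) • x) = ‖(r : ℂ)‖ * N j x := map_smul_eq_mul _ _ _
    rw [this, Complex.norm_real, Real.norm_eq_abs, abs_of_pos hr]
  have e1 : ((c⁻¹ : ℝ) : ℂ) • t n ∈ U1 := by
    apply hm1
    rw [hsc _ _ _ (inv_pos.2 hc0)]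
    have h3 : N m1 (t n) ≤ N k (t n) := N_mono (le_max_left _ _) _
    rw [inv_mul_lt_iff₀ hc0]
    have h4 : N k (t n) < c * δ1 := by
      rw [hcdef, div_mul_eq_mul_div, lt_div_iff₀ hs]
      linarith
    linarith
  have e2 : ((c : ℝ) : ℂ) • s n ∈ U2 := by
    apply hm2
    rw [hsc _ _ _ hc0]
    have h3 : N m2 (s n) ≤ N k (s n) := N_mono (le_max_right _ _) _
    have h4 : c * N m2 (s n) ≤ c * (N k (s n) + 1) :=
      mul_le_mul_of_nonneg_left (by linarith) hc0.le
    have h5 : c * (N k (s n) + 1) = δ2 / 2 := by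
      rw [hcdef]; field_simp
    linarith
  have e3 : B (((c⁻¹ : ℝ) : ℂ) • t n) (D (((c : ℝ) : ℂ) • s n)) = B (t n) (D (s n)) := by
    simp only [map_smul, LinearMap.smul_apply, smul_smul]
    rw [← Complex.ofReal_mul, mul_inv_cancel₀ hc0.ne', Complex.ofReal_one, one_smul]
  have h6 := h12 (Set.mk_mem_prod e1 e2)
  have h7 : B (((c⁻¹ : ℝ) : ℂ) • t n) (D (((c : ℝ) : ℂ) • s n)) ∈ U := h6
  rw [e3] at h7
  exact h7

/-! ### The approximate identity -/

/-- The unit vectors. -/
def e (i : Idx) : Lam PP := ⟨Pi.single i 1, by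
  classical
  show MemLam PP _
  rw [mem_iff]
  intro m
  refine summable_of_ne_finset_zero (s := {i}) fun j hj => ?_
  have : j ≠ i := by simpa using hj
  simp [this]⟩

theorem e_apply (i j : Idx) : (e i).1 j = if j = i then 1 else 0 := by
  show (Pi.single i (1 : ℂ) : Idx → ℂ) j = _
  rw [Pi.single_apply]

/-- the first `n` blocks -/
def FF (n : ℕ) : Finset Idx := (Finset.range n).sigma fun _ => Finset.univ

theorem mem_FF (n : ℕ) (i : Idx) : i ∈ FF n ↔ i.1 < n := by
  simp [FF]

/-- the idempotents -/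
def E (n : ℕ) : Lam PP := ∑ i ∈ FF n, e i

theorem val_sum (s : Finset Idx) (f : Idx → Lam PP) (j : Idx) :
    (∑ i ∈ s, f i).1 j = ∑ i ∈ s, (f i).1 j := by
  classical
  induction s using Finset.induction_on with
  | empty => rfl
  | insert a s ha ih =>
    rw [Finset.sum_insert ha, Finset.sum_insert ha, ← ih]
    rfl

theorem E_apply (n : ℕ) (j : Idx) : (E n).1 j = if j.1 < n then 1 else 0 := by
  rw [E, val_sum]
  simp only [e_apply]
  rw [Finset.sum_ite_eq]
  simp only [mem_FF]

theorem ext' {x y : Lam PP} (h : ∀ i, x.1 i = y.1 i) : x = y := Subtype.ext (funext h)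

theorem mul_apply (x y : Lam PP) (i : Idx) : (lmul closed x y).1 i = x.1 i * y.1 i := rfl

theorem mul_e (a : Lam PP) (i : Idx) : lmul closed a (e i) = (a.1 i) • e i := by
  refine ext' fun j => ?_
  have h : ((a.1 i) • e i).1 j = a.1 i * (e i).1 j := rfl
  rw [h, mul_apply, e_apply]
  by_cases hj : j = i
  · subst hj; rfl
  · simp [hj]

theorem mul_comm' (a b : Lam PP) : lmul closed a b = lmul closed b a :=
  ext' fun i => by rw [mul_apply, mul_apply, mul_comm]

theorem e_mul (a : Lam PP) (i : Idx) : lmul closed (e i) a = (a.1 i) • e i := by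
  rw [mul_comm', mul_e]

theorem e_e (i : Idx) : lmul closed (e i) (e i) = e i := by
  rw [mul_e, e_apply, if_pos rfl, one_smul]

theorem E_E (n : ℕ) : lmul closed (E n) (E n) = E n :=
  ext' fun i => by
    rw [mul_apply, E_apply]
    split_ifs <;> simp

/-- the tails -/
def T (a : Lam PP) (n : ℕ) : Lam PP := a - lmul closed a (E n)

theorem T_apply (a : Lam PP) (n : ℕ) (i : Idx) :
    (T a n).1 i = if i.1 < n then 0 else a.1 i := by
  have h : (T a n).1 i = a.1 i - a.1 i * (E n).1 i := rfl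
  rw [h, E_apply]
  split_ifs <;> simp

theorem T_E (a : Lam PP) (n : ℕ) : lmul closed (T a n) (E n) = 0 :=
  ext' fun i => by
    rw [mul_apply, E_apply, T_apply]
    have : (0 : Lam PP).1 i = 0 := rfl
    rw [this]
    split_ifs <;> simp

/-! ### The estimates -/

theorem N_T (a : Lam PP) (m n : ℕ) : N m (T a n) * (W n : ℝ) ^ 2 ≤ N (m + 2) a := by
  rw [N_def, N_def, ← tsum_mul_right]
  refine ((summ m (T a n)).mul_right _).tsum_le_tsum (fun i => ?_) (summ (m + 2) a)
  rw [T_apply]
  split_ifs with h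
  · simp only [norm_zero, zero_mul]
    positivity
  · have h1 : (W n : ℝ) ≤ W i.1 := by exact_mod_cast W_mono (not_lt.1 h)
    have h2 : (W n : ℝ) ^ 2 ≤ (W i.1 : ℝ) ^ 2 := by gcongr
    rw [pow_add, ← mul_assoc]
    exact mul_le_mul_of_nonneg_left h2 (by positivity)

theorem N_E (m n : ℕ) (h : m ≤ n) : N m (E n) ≤ W n := by
  rw [N_def]
  have h1 : ∑' i, ‖(E n).1 i‖ * (W i.1 : ℝ) ^ m = ∑ i ∈ FF n, (W i.1 : ℝ) ^ m := by
    rw [tsum_eq_sum (s := FF n)]
    · refine Finset.sum_congr rfl fun i hi => ?_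
      rw [E_apply, if_pos ((mem_FF n i).1 hi)]
      simp
    · intro i hi
      rw [E_apply, if_neg (fun h => hi ((mem_FF n i).2 h))]
      simp
  rw [h1, FF, Finset.sum_sigma]
  simp only [Finset.sum_const, Finset.card_univ, Fintype.card_fin, nsmul_eq_mul]
  have h2 : ∑ k ∈ Finset.range n, (((W k) ^ k : ℕ) : ℝ) * (W k : ℝ) ^ m
      ≤ ((∑ k ∈ Finset.range n, (W k) ^ (k + n) : ℕ) : ℝ) := by
    rw [Nat.cast_sum]
    refine Finset.sum_le_sum fun k _ => ?_
    rw [Nat.cast_pow, Nat.cast_pow, ← pow_add]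
    exact pow_le_pow_right₀ (one_le_W k) (by omega)
  refine h2.trans ?_
  have h3 := W_eq n
  exact_mod_cast (by omega : ∑ k ∈ Finset.range n, (W k) ^ (k + n) ≤ W n)

theorem W_tendsto : Tendsto (fun n => (W n : ℝ)) atTop atTop := by
  refine tendsto_atTop_mono (fun n => ?_) tendsto_natCast_atTop_atTop
  have := W_ge n
  exact_mod_cast (by omega : n ≤ W n)

theorem W_inv : Tendsto (fun n => ((W n : ℝ))⁻¹) atTop (𝓝 0) :=
  tendsto_inv_atTop_zero.comp W_tendsto

theorem T_zero (a : Lam PP) (m : ℕ) : Tendsto (fun n => (N m (E n) + 1) * N m (T a n)) atTop (𝓝 0) := by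
  have h0 : Tendsto (fun n => 2 * N (m + 2) a * ((W n : ℝ))⁻¹) atTop (𝓝 0) := by
    simpa using W_inv.const_mul (2 * N (m + 2) a)
  refine squeeze_zero' (Eventually.of_forall fun n => ?_) ?_ h0
  · have h1 := N_nonneg m (E n)
    have h2 := N_nonneg m (T a n)
    exact mul_nonneg (by linarith) h2
  · filter_upwards [eventually_ge_atTop m] with n hn
    have h1 := N_T a m n
    have h2 := N_E m n hn
    have h3 := one_le_W n
    have h4 := N_nonneg m (T a n)
    have h5 : (0 : ℝ) < W n := by linarith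
    rw [← div_eq_mul_inv, le_div_iff₀ h5]
    have h6 : (N m (E n) + 1) ≤ 2 * W n := by linarith
    calc (N m (E n) + 1) * N m (T a n) * W n ≤ (2 * W n) * N m (T a n) * W n := by gcongr
      _ = 2 * (N m (T a n) * (W n : ℝ) ^ 2) := by ring
      _ ≤ 2 * N (m + 2) a := by linarith

theorem T_tendsto (a : Lam PP) : Tendsto (T a) atTop (𝓝 0) := by
  refine tendsto_zero fun m => ?_
  refine squeeze_zero (fun n => N_nonneg m _) (fun n => ?_) (T_zero a m)
  have h1 := N_nonneg m (E n)
  have h2 := N_nonneg m (T a n)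
  nlinarith

theorem aE_tendsto (a : Lam PP) : Tendsto (fun n => lmul closed a (E n)) atTop (𝓝 a) := by
  have h : Tendsto (fun n => a - T a n) atTop (𝓝 (a - 0)) := (T_tendsto a).const_sub a
  rw [sub_zero] at h
  refine h.congr fun n => ?_
  rw [T]; abel

/-! ### Approximate contractibility -/

theorem approx : ApproximatelyContractible (lmul closed) := by
  intro X _ _ _ hX L R hB D hD
  obtain ⟨hL, hR, hLL, hRR, hLR⟩ := hB
  have := hX.group
  refine ⟨ℕ, inferInstance, inferInstance, inferInstance,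
    fun n => - ∑ i ∈ FF n, R (e i) (D (e i)) + D (E n) - R (E n) (D (E n)), fun a => ?_⟩
  have key : ∀ n, L a (- ∑ i ∈ FF n, R (e i) (D (e i)) + D (E n) - R (E n) (D (E n)))
      - R a (- ∑ i ∈ FF n, R (e i) (D (e i)) + D (E n) - R (E n) (D (E n)))
      = D (lmul closed a (E n)) - L (T a n) (D (E n)) - R (T a n) (D (E n)) := by
    intro n
    -- the sum
    have h1 : ∀ i, L a (R (e i) (D (e i))) - R a (R (e i) (D (e i))) = - R (e i) (D a) := by
      intro i
      have h2 := hD a (e i)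
      have h3 : L a (D (e i)) = a.1 i • D (e i) - R (e i) (D a) := by
        rw [mul_e, map_smul] at h2
        rw [h2]; abel
      have h4 : R (e i) (R (e i) (D a)) = R (e i) (D a) := by rw [← hRR, e_e]
      have h5 : R a (R (e i) (D (e i))) = a.1 i • R (e i) (D (e i)) := by
        rw [← hRR, e_mul, map_smul, LinearMap.smul_apply]
      rw [hLR, h3, map_sub, map_smul, h4, h5]
      abel
    have hsum : ∑ i ∈ FF n, R (e i) (D a) = R (E n) (D a) := by
      rw [E, map_sum, LinearMap.sum_apply]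
    have h4 : L a (∑ i ∈ FF n, R (e i) (D (e i))) - R a (∑ i ∈ FF n, R (e i) (D (e i)))
        = - R (E n) (D a) := by
      rw [map_sum, map_sum, ← Finset.sum_sub_distrib, Finset.sum_congr rfl fun i _ => h1 i,
        Finset.sum_neg_distrib, hsum]
    -- the idempotent
    have h5 : L (E n) (R (E n) (D (E n))) = 0 := by
      have h6 := hD (E n) (E n)
      rw [E_E] at h6
      have h7 : R (E n) (D (E n)) = R (E n) (L (E n) (D (E n))) + R (E n) (R (E n) (D (E n))) := by
        rw [← map_add, ← h6]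
      rw [← hRR, E_E, ← hLR] at h7
      have h8 : L (E n) (R (E n) (D (E n))) + R (E n) (D (E n)) = 0 + R (E n) (D (E n)) := by
        rw [zero_add]; exact h7.symm
      exact add_right_cancel h8
    have hat : a = T a n + lmul closed a (E n) := by rw [T]; abel
    have h6 : L a (R (E n) (D (E n))) = L (T a n) (D (E n)) := by
      have h7 : L a (R (E n) (D (E n))) = L (T a n) (R (E n) (D (E n))) := by
        conv_lhs => rw [hat]
        rw [map_add, LinearMap.add_apply, hLL, h5, map_zero, add_zero]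
      have h8 := hD (E n) (E n)
      rw [E_E] at h8
      have h9 : L (T a n) (D (E n)) = L (T a n) (L (E n) (D (E n)))
          + L (T a n) (R (E n) (D (E n))) := by
        rw [← map_add, ← h8]
      rw [← hLL, T_E, map_zero, LinearMap.zero_apply, zero_add] at h9
      rw [h7, h9]
    have h7 : R a (D (E n)) = R (T a n) (D (E n)) + R a (R (E n) (D (E n))) := by
      rw [← hRR, mul_comm', ← LinearMap.add_apply, ← map_add, ← hat]
    have h8 := hD a (E n)
    rw [map_sub, map_add, map_neg, map_sub, map_add, map_neg, h6, h7, h8]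
    have h9 := sub_eq_iff_eq_add.1 h4
    rw [h9]
    abel
  have hlim : Tendsto (fun n => D (lmul closed a (E n)) - L (T a n) (D (E n))
      - R (T a n) (D (E n))) atTop (𝓝 (D a - 0 - 0)) := by
    refine (((D.continuous.tendsto a).comp (aE_tendsto a)).sub ?_).sub ?_
    · exact bil L hL D E (T a) (T_zero a)
    · exact bil R hR D E (T a) (T_zero a)
  rw [sub_zero, sub_zero] at hlim
  exact hlim.congr fun n => (key n).symm

/-! ### The space is not nuclear -/

instance : Fact ((1 : ENNReal) ≤ 1) := ⟨le_rfl⟩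

theorem memL1 (x : Lam PP) : Memℓp x.1 (1 : ENNReal) := by
  rw [memℓp_gen_iff (by simp)]
  have := summ 0 x
  simpa using this

/-- the inclusion into `ℓ¹` -/
def incl : Lam PP →ₗ[ℂ] lp (fun _ : Idx => ℂ) 1 where
  toFun x := ⟨x.1, memL1 x⟩
  map_add' _ _ := rfl
  map_smul' _ _ := rfl

theorem incl_apply (x : Lam PP) (i : Idx) : incl x i = x.1 i := rfl

theorem norm_incl (x : Lam PP) : ‖incl x‖ = N 0 x := by
  rw [lp.norm_eq_tsum_rpow (by simp), N_def]
  simp [incl_apply]

theorem incl_cont : Continuous incl := by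
  refine withSem.continuous_normedSpace_rng _ incl
    ⟨{⟨wt 0, wt_mem 0⟩}, 1, fun x => ?_⟩
  rw [Finset.sup_singleton, one_smul]
  exact (norm_incl x).le

theorem N_e (m : ℕ) (i : Idx) : N m (e i) = (W i.1 : ℝ) ^ m := by
  rw [N_def, tsum_eq_single i]
  · rw [e_apply]; simp
  · intro j hj
    rw [e_apply, if_neg hj]; simp

theorem notNuclear : ¬ IsNuclearSpace (Lam PP) := by
  intro h
  obtain ⟨q, f, y, hq, hf, hy, hT⟩ := h (lp (fun _ : Idx => ℂ) 1) ⟨incl, incl_cont⟩
  obtain ⟨s, C, -, hC⟩ := Seminorm.bound_of_continuous withSem q hq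
  obtain ⟨m, hm⟩ := sup_le s
  have hq' : ∀ x, q x ≤ C * N m x := fun x => by
    refine (hC x).trans ?_
    have : (C • s.sup (nrm PP)) x = C * (s.sup (nrm PP)) x := rfl
    rw [this]
    exact mul_le_mul_of_nonneg_left (hm x) C.2
  have hyi : ∀ i : Idx, Summable fun n => ‖y n i‖ := fun i =>
    Summable.of_nonneg_of_le (fun n => norm_nonneg _)
      (fun n => lp.norm_apply_le_norm one_ne_zero _ i) hy
  have hone : ∀ i : Idx, (1 : ℝ) ≤ C * (W i.1 : ℝ) ^ m * ∑' n, ‖y n i‖ := by
    intro i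
    have h1 : HasSum (fun n => f n (e i) * y n i) 1 := by
      have h2 := (hT (e i)).mapL (lp.evalCLM ℂ (fun _ : Idx => ℂ) 1 i)
      have h3 : (lp.evalCLM ℂ (fun _ : Idx => ℂ) 1 i) ((⟨incl, incl_cont⟩ : Lam PP →L[ℂ] _) (e i))
          = 1 := by
        show (e i).1 i = 1
        rw [e_apply, if_pos rfl]
      rw [h3] at h2
      have h4 : (fun n => (lp.evalCLM ℂ (fun _ : Idx => ℂ) 1 i) (f n (e i) • y n))
          = fun n => f n (e i) * y n i := by
        funext n
        rw [map_smul]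
        rfl
      rw [h4] at h2
      exact h2
    have h4 : ∀ n, ‖f n (e i) * y n i‖ ≤ C * (W i.1 : ℝ) ^ m * ‖y n i‖ := by
      intro n
      rw [norm_mul]
      refine mul_le_mul_of_nonneg_right ?_ (norm_nonneg _)
      refine (hf n _).trans ((hq' _).trans ?_)
      rw [N_e]
    have h5 : ‖∑' n, f n (e i) * y n i‖ ≤ ∑' n, C * (W i.1 : ℝ) ^ m * ‖y n i‖ :=
      tsum_of_norm_bounded ((hyi i).mul_left _).hasSum h4
    rw [h1.tsum_eq, norm_one, tsum_mul_left] at h5
    exact h5
  set S : ℝ := ∑' n, ‖y n‖ with hS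
  have hS0 : 0 ≤ S := tsum_nonneg fun n => norm_nonneg _
  have hblock : ∀ k : ℕ, (W k : ℝ) ^ k ≤ C * (W k : ℝ) ^ m * S := by
    intro k
    have h1 : ∑ j : Fin (W k ^ k), (1 : ℝ)
        ≤ ∑ j : Fin (W k ^ k), C * (W k : ℝ) ^ m * ∑' n, ‖y n (⟨k, j⟩ : Idx)‖ :=
      Finset.sum_le_sum fun j _ => hone ⟨k, j⟩
    rw [← Finset.mul_sum, Finset.sum_const, Finset.card_univ, Fintype.card_fin, nsmul_eq_mul,
      mul_one, Nat.cast_pow] at h1
    refine h1.trans (mul_le_mul_of_nonneg_left ?_ (by positivity))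
    rw [← Summable.tsum_finsetSum (fun j _ => hyi ⟨k, j⟩)]
    refine (summable_sum fun j _ => hyi ⟨k, j⟩).tsum_le_tsum (fun n => ?_) hy
    have h2 := lp.sum_rpow_le_norm_rpow (p := (1 : ENNReal)) (by simp) (y n)
      (Finset.univ.map ⟨fun j : Fin (W k ^ k) => (⟨k, j⟩ : Idx), fun a b hab => by
        simpa using hab⟩)
    rw [Finset.sum_map] at h2
    simp only [ENNReal.toReal_one, Real.rpow_one] at h2
    exact h2
  obtain ⟨k, hk⟩ := exists_nat_gt (C * S)
  have h1 := hblock (k + m + 1)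
  have h2 : (W (k + m + 1) : ℝ) ^ (k + 1) ≤ C * S := by
    have h3 : (0 : ℝ) < (W (k + m + 1) : ℝ) ^ m := by
      have := one_le_W (k + m + 1)
      positivity
    have h4 : (W (k + m + 1) : ℝ) ^ (k + m + 1)
        = (W (k + m + 1) : ℝ) ^ (k + 1) * (W (k + m + 1) : ℝ) ^ m := by
      rw [← pow_add]; congr 1; omega
    rw [h4] at h1
    have h5 : (W (k + m + 1) : ℝ) ^ (k + 1) * (W (k + m + 1) : ℝ) ^ m
        ≤ (C * S) * (W (k + m + 1) : ℝ) ^ m := by linarith
    exact le_of_mul_le_mul_right h5 h3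
  have h3 : (W (k + m + 1) : ℝ) ≤ (W (k + m + 1) : ℝ) ^ (k + 1) :=
    le_self_pow₀ (one_le_W _) (by omega)
  have h4 : ((k : ℕ) : ℝ) ≤ W (k + m + 1) := by
    have := W_ge (k + m + 1)
    exact_mod_cast (by omega : k ≤ W (k + m + 1))
  linarith

theorem result : ∃ (I : Type) (P : Set (I → ℝ≥0)), IsKoetheSet P ∧
    ∃ h : MulClosed P, ApproximatelyContractible (lmul h) ∧ ¬ IsNuclearSpace (Lam P) :=
  ⟨Idx, PP, koethe, closed, approx, notNuclear⟩

end

end Pool.Agent.Results.MP_07c133_an.NotNuclear
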